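import Pool.Agent.W584.GB.Defs

set_option autoImplicit false

/-!
Project GB: every admissible triple of cells is the triple of supports of a configuration.
-/

namespace Pool.Agent.W612.GB

open Pool.Agent.W584.GB

theorem cell_pair {V : Type} [Fintype V] [DecidableEq V] (G : SimpleGraph V)
    (c : {c : Finset V // IsCell G c}) :
    ∃ p : V × V, (p.1 = p.2 ∨ G.Adj p.1 p.2) ∧ c.1 = {p.1, p.2} := by
  rcases c.2 with ⟨u, hu⟩ | ⟨u, w, h, hc⟩
  · exact ⟨(u, u), Or.inl rfl, by simp [hu]⟩
  · exact ⟨(u, w), Or.inr h, hc⟩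

/-- the point at parameter `t` -/
noncomputable def pnt {V : Type} [Fintype V] [DecidableEq V] (G : SimpleGraph V) (u w : V)
    (h : u = w ∨ G.Adj u w) (t : ℝ) (h0 : 0 ≤ t) (h1 : t ≤ 1) : Pt G :=
  ⟨t • Pi.single u (1 : ℝ) + (1 - t) • Pi.single w (1 : ℝ), u, w, h, t, h0, h1, rfl⟩

theorem pnt_apply {V : Type} [Fintype V] [DecidableEq V] (G : SimpleGraph V) (u w : V)
    (h : u = w ∨ G.Adj u w) (t : ℝ) (h0 : 0 ≤ t) (h1 : t ≤ 1) (z : V) :
    (pnt G u w h t h0 h1).1 z = (if z = u then t else 0) + (if z = w then 1 - t else 0) := by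
  unfold pnt
  simp only [Pi.add_apply, Pi.smul_apply, Pi.single_apply, smul_eq_mul, mul_ite, mul_one, mul_zero]

theorem supp_pnt {V : Type} [Fintype V] [DecidableEq V] (G : SimpleGraph V) (u w : V)
    (h : u = w ∨ G.Adj u w) (t : ℝ) (h0 : 0 < t) (h1 : t < 1) :
    supp (pnt G u w h t h0.le h1.le) = {u, w} := by
  unfold supp
  ext z
  simp only [Finset.mem_filter, Finset.mem_univ, true_and, Finset.mem_insert,
    Finset.mem_singleton, ne_eq]
  rw [pnt_apply]
  by_cases hu : z = u
  · by_cases hw : z = w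
    · rw [if_pos hu, if_pos hw]
      simp [hu]
    · rw [if_pos hu, if_neg hw]
      simp only [add_zero, hu, true_or, iff_true]
      exact h0.ne'
  · by_cases hw : z = w
    · rw [if_neg hu, if_pos hw]
      simp only [zero_add, hw, or_true, iff_true]
      exact (by linarith : (0 : ℝ) < 1 - t).ne'
    · rw [if_neg hu, if_neg hw]
      simp [hu, hw]

/-- the parameters -/
noncomputable def par (i : Fin 3) : ℝ := ((i : ℕ) + 1) / 4

theorem par_pos (i : Fin 3) : 0 < par i := by
  unfold par
  positivity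

theorem par_lt (i : Fin 3) : par i < 1 := by
  unfold par
  have h : (i : ℕ) ≤ 2 := by omega
  have h' : ((i : ℕ) : ℝ) ≤ 2 := by exact_mod_cast h
  rw [div_lt_one (by norm_num)]
  linarith

theorem par_inj (i j : Fin 3) (h : par i = par j) : i = j := by
  unfold par at h
  have h2 : ((i : ℕ) : ℝ) = ((j : ℕ) : ℝ) := by linarith
  have h3 : (i : ℕ) = (j : ℕ) := by exact_mod_cast h2
  exact Fin.ext h3

theorem real : S_real := by
  intro V _ _ G a ha hd
  choose e he1 he2 using cell_pair G
  let p : Fin 3 → Pt G := fun i => pnt G (e ⟨a i, ha i⟩).1 (e ⟨a i, ha i⟩).2 (he1 ⟨a i, ha i⟩)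
    (par i) (par_pos i).le (par_lt i).le
  have hs : ∀ i, supp (p i) = a i := by
    intro i
    have h1 : supp (p i) = {(e ⟨a i, ha i⟩).1, (e ⟨a i, ha i⟩).2} :=
      supp_pnt G _ _ _ (par i) (par_pos i) (par_lt i)
    rw [h1, ← he2 ⟨a i, ha i⟩]
  have hinj : Function.Injective p := by
    intro i j hij
    by_contra hne
    have h1 : a i = a j := by rw [← hs i, ← hs j, hij]
    have h2 : (⟨a i, ha i⟩ : {c : Finset V // IsCell G c}) = ⟨a j, ha j⟩ := Subtype.ext h1
    have h3 := congrArg (fun x : Pt G => x.1 (e ⟨a i, ha i⟩).1) hij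
    simp only [p] at h3
    rw [pnt_apply, pnt_apply, ← h2, if_pos rfl, if_pos rfl] at h3
    by_cases h4 : (e ⟨a i, ha i⟩).1 = (e ⟨a i, ha i⟩).2
    · have h5 := he2 ⟨a i, ha i⟩
      rw [← h4] at h5
      simp only [Finset.insert_eq_of_mem, Finset.mem_singleton] at h5
      exact hd i j _ hne h5 (by rw [← h1]; exact h5)
    · rw [if_neg h4, if_neg h4, add_zero, add_zero] at h3
      exact hne (par_inj i j h3)
  exact ⟨⟨p, hinj⟩, hs⟩

theorem type_of : S_real → S_cell → S_type := by
  intro hr hc V _ _ G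
  constructor
  · intro x
    induction x using Quot.inductionOn with
    | _ f =>
    change Adm G (typ f)
    obtain ⟨c1, c2, _⟩ := hc V G
    refine ⟨?_, ?_, ?_⟩
    · unfold typ
      simp
    · intro c hcm
      unfold typ at hcm
      rw [Multiset.mem_map] at hcm
      obtain ⟨i, _, rfl⟩ := hcm
      exact c1 _
    · intro u
      unfold typ
      rw [Multiset.count_map]
      change (Finset.univ.filter fun i => ({u} : Finset V) = supp (f.1 i)).card ≤ 1
      rw [Finset.card_le_one]
      intro i hi j hj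
      rw [Finset.mem_filter] at hi hj
      exact f.2 (c2 _ _ u hi.2.symm hj.2.symm)
  · intro τ hτ
    obtain ⟨h3, hcell, hcount⟩ := hτ
    obtain ⟨x, y, z, rfl⟩ := Multiset.card_eq_three.mp h3
    have hmap : ((Finset.univ : Finset (Fin 3)).val.map (![x, y, z] : Fin 3 → Finset V)) =
        ({x, y, z} : Multiset (Finset V)) := by
      rw [Fin.univ_val_map]
      rfl
    have hcell' : ∀ i, IsCell G ((![x, y, z] : Fin 3 → Finset V) i) := by
      intro i
      apply hcell
      rw [← hmap]
      exact Multiset.mem_map_of_mem _ (Finset.mem_univ i)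
    obtain ⟨f, hf⟩ := hr V G (![x, y, z] : Fin 3 → Finset V) hcell' (by
      intro i j u hij h1 h2
      have h4 := hcount u
      rw [← hmap, Multiset.count_map] at h4
      change (Finset.univ.filter fun i => ({u} : Finset V) =
        (![x, y, z] : Fin 3 → Finset V) i).card ≤ 1 at h4
      rw [Finset.card_le_one] at h4
      exact hij (h4 i (by simp [h1]) j (by simp [h2])))
    refine ⟨Quot.mk _ f, ?_⟩
    change typ f = _
    unfold typ
    rw [← hmap]
    apply Multiset.map_congr rfl
    intro i _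
    exact hf i

end Pool.Agent.W612.GB
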